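import Mathlib
import Pool.Agent.R874.Weitz

namespace Pool.Agent.Results.MP_d68c88_al.ConstantsGenerated

open Pool.R874.Weitz

/-- `K` a field of characteristic zero, `L` the free Lie algebra on `x = of 0`, `y = of 1`.
There is a derivation `δ` of `L` with `δ x = 0`, `δ y = x`; for every such `δ` (it is unique) and
every set `P` of constants of `δ`, the constants of `δ` are exactly the elements of the Lie
subalgebra generated by `x`, by the constants of the form `⁅g, h⁆` with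
`δ^(r-1) g = α h ≠ 0` for some `r ≥ 1` and some `α` in `K`, and by `P`. -/
theorem result (K : Type) [Field K] [CharZero K] :
    (∃ δ : LieDerivation K (FreeLieAlgebra K (Fin 2)) (FreeLieAlgebra K (Fin 2)),
      δ (FreeLieAlgebra.of K 0) = 0 ∧ δ (FreeLieAlgebra.of K 1) = FreeLieAlgebra.of K 0) ∧
    ∀ δ : LieDerivation K (FreeLieAlgebra K (Fin 2)) (FreeLieAlgebra K (Fin 2)),
      δ (FreeLieAlgebra.of K 0) = 0 → δ (FreeLieAlgebra.of K 1) = FreeLieAlgebra.of K 0 →
      ∀ P : Set (FreeLieAlgebra K (Fin 2)), (∀ p ∈ P, δ p = 0) →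
      ∀ z : FreeLieAlgebra K (Fin 2),
        δ z = 0 ↔ z ∈ LieSubalgebra.lieSpan K (FreeLieAlgebra K (Fin 2))
          ({FreeLieAlgebra.of K 0} ∪
            {z | δ z = 0 ∧ ∃ (g h : FreeLieAlgebra K (Fin 2)) (r : ℕ) (α : K), 1 ≤ r ∧
              (δ^[r - 1]) g = α • h ∧ α • h ≠ 0 ∧ z = ⁅g, h⁆} ∪ P) := by
  refine ⟨?_, fun δ hx hy P hP z => final K δ hx hy P hP z⟩
  obtain ⟨δ, hδ⟩ := exists_derivation K (X := Fin 2) ![0, FreeLieAlgebra.of K 0]
  exact ⟨δ, hδ 0, hδ 1⟩

end Pool.Agent.Results.MP_d68c88_al.ConstantsGenerated
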